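import Pool.Agent.W541.DL.Stm

/-!
# Project DL (helper541): decorrelation of the diagonal of the Airy sheet, `S_COV`
-/

set_option autoImplicit false

namespace Pool.Agent.W101.DL.COV

open MeasureTheory ProbabilityTheory Filter Topology Pool.Agent.W541.DL

theorem cl_cont (A : ℝ) : Continuous (cl A) := by
  unfold cl
  fun_prop

theorem cl_abs {A : ℝ} (hA : 0 ≤ A) (v : ℝ) : |cl A v| ≤ A := by
  unfold cl
  rw [abs_le]
  exact ⟨le_max_left _ _, max_le (by linarith) (min_le_left _ _)⟩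

/-- A ramp: `0` below `a`, and `1` from `2 a` on. -/
noncomputable def ph (a v : ℝ) : ℝ := min 1 (max 0 ((v - a) / a))

theorem ph_cont (a : ℝ) : Continuous (ph a) := by
  unfold ph
  fun_prop

theorem ph_nonneg (a v : ℝ) : 0 ≤ ph a v := le_min (by norm_num) (le_max_left _ _)

theorem ph_le_one (a v : ℝ) : ph a v ≤ 1 := min_le_left _ _

theorem ph_abs (a v : ℝ) : |ph a v| ≤ 1 := by
  rw [abs_of_nonneg (ph_nonneg a v)]
  exact ph_le_one a v

theorem ind_le_ph {a v : ℝ} (ha : 0 < a) (h : 2 * a ≤ v) : 1 ≤ ph a v := by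
  unfold ph
  refine le_min le_rfl (le_max_of_le_right ?_)
  rw [le_div_iff₀ ha]
  linarith

theorem ph_zero {a v : ℝ} (ha : 0 < a) (h : v < a) : ph a v = 0 := by
  unfold ph
  have : (v - a) / a ≤ 0 := div_nonpos_of_nonpos_of_nonneg (by linarith) ha.le
  rw [max_eq_left this]
  norm_num

theorem meas_pre {Ω' : Type} [MeasurableSpace Ω'] {P' : Measure Ω'} {W : ℕ → ℝ → Ω' → ℝ}
    (hM : S_MEASK) (hW : IsBM P' W) (n : ℕ) (x y : ℝ) :
    Measurable (fun ω => preSheet (env W ω) n x y) := by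
  have h := hM Ω' inferInstance W n (paths n (2 * x / (n : ℝ) ^ ((1 : ℝ) / 3))
    (1 + 2 * y / (n : ℝ) ^ ((1 : ℝ) / 3))) hW.cont
    (fun τ _ k _ => (hW.meas k _).sub (hW.meas k _))
  unfold preSheet blpp
  exact ((h.sub_const _).sub_const _).const_mul _

theorem prob_le {Ω : Type} [MeasurableSpace Ω] (P : Measure Ω) [IsProbabilityMeasure P]
    (X : Ω → ℝ) (hX : Measurable X) {a : ℝ} (ha : 0 < a) :
    P.real {ω | 2 * a ≤ X ω} ≤ ∫ ω, ph a (X ω) ∂P := by
  have hm : MeasurableSet {ω | 2 * a ≤ X ω} := measurableSet_le measurable_const hX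
  rw [← integral_indicator_one hm]
  refine integral_mono ((integrable_const (1 : ℝ)).indicator hm) ?_ ?_
  · refine Integrable.of_bound (((ph_cont a).measurable.comp hX).aestronglyMeasurable) 1
      (ae_of_all _ fun ω => ?_)
    rw [Real.norm_eq_abs]
    exact ph_abs a (X ω)
  · intro ω
    by_cases h : ω ∈ {ω | 2 * a ≤ X ω}
    · rw [Set.indicator_of_mem h]
      exact ind_le_ph ha h
    · rw [Set.indicator_of_notMem h]
      exact ph_nonneg a (X ω)

theorem le_prob {Ω : Type} [MeasurableSpace Ω] (P : Measure Ω) [IsProbabilityMeasure P]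
    (X : Ω → ℝ) (hX : Measurable X) {a : ℝ} (ha : 0 < a) :
    ∫ ω, ph a (X ω) ∂P ≤ P.real {ω | a ≤ X ω} := by
  have hm : MeasurableSet {ω | a ≤ X ω} := measurableSet_le measurable_const hX
  rw [← integral_indicator_one hm]
  refine integral_mono ?_ ((integrable_const (1 : ℝ)).indicator hm) ?_
  · refine Integrable.of_bound (((ph_cont a).measurable.comp hX).aestronglyMeasurable) 1
      (ae_of_all _ fun ω => ?_)
    rw [Real.norm_eq_abs]
    exact ph_abs a (X ω)
  · intro ω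
    by_cases h : ω ∈ {ω | a ≤ X ω}
    · rw [Set.indicator_of_mem h]
      exact ph_le_one a (X ω)
    · rw [Set.indicator_of_notMem h]
      have : X ω < a := not_le.1 h
      exact (ph_zero ha this).le

theorem main (hV : S_COVN) (hM : S_MEASK) : S_COV := by
  intro Ω' _ P' W Ω _ P S c A u x y hW hP hS hA hc hA0 hu hcu hxy
  have := hP
  have : IsProbabilityMeasure P' := (hW.gauss.hasGaussianLaw ∅).isProbabilityMeasure
  have ha : 0 < u ^ 2 / 16 := by positivity
  have lim1 : ∀ (z : ℝ) (f : ℝ → ℝ), Continuous f → (∃ C, ∀ v, |f v| ≤ C) →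
      Tendsto (fun n : ℕ => ∫ ω, f (preSheet (env W ω) n z z) ∂P') atTop
        (𝓝 (∫ ω, f (S z z ω) ∂P)) := by
    intro z f hf hC
    obtain ⟨C, hC⟩ := hC
    exact hA.2 1 (fun _ => (z, z)) (fun v => f (v 0)) (hf.comp (continuous_apply 0))
      ⟨C, fun v => hC _⟩
  have l2 := lim1 x (cl A) (cl_cont A) ⟨A, cl_abs hA0⟩
  have l3 := lim1 y (cl A) (cl_cont A) ⟨A, cl_abs hA0⟩
  have l4 := lim1 0 (ph (u ^ 2 / 16)) (ph_cont _) ⟨1, ph_abs _⟩
  have l1 : Tendsto (fun n : ℕ => ∫ ω, cl A (preSheet (env W ω) n x x) *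
      cl A (preSheet (env W ω) n y y) ∂P') atTop
        (𝓝 (∫ ω, cl A (S x x ω) * cl A (S y y ω) ∂P)) := by
    refine hA.2 2 (fun i => if i = 0 then (x, x) else (y, y)) (fun v => cl A (v 0) * cl A (v 1))
      (((cl_cont A).comp (continuous_apply 0)).mul ((cl_cont A).comp (continuous_apply 1)))
      ⟨A * A, fun v => ?_⟩
    rw [abs_mul]
    exact mul_le_mul (cl_abs hA0 _) (cl_abs hA0 _) (abs_nonneg _) hA0
  have hev := hV Ω' P' W c A u x y hW hc hA0 hu hcu hxy
  have hlim := (l1.sub (l2.mul l3)).abs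
  have hlim' := l4.const_mul (64 * A ^ 2)
  have hfin : |(∫ ω, cl A (S x x ω) * cl A (S y y ω) ∂P)
      - (∫ ω, cl A (S x x ω) ∂P) * ∫ ω, cl A (S y y ω) ∂P| ≤
      64 * A ^ 2 * ∫ ω, ph (u ^ 2 / 16) (S 0 0 ω) ∂P := by
    refine le_of_tendsto_of_tendsto hlim hlim' ?_
    filter_upwards [hev] with n hn
    refine hn.trans (mul_le_mul_of_nonneg_left ?_ (by positivity))
    have h := prob_le P' _ (meas_pre hM hW n 0 0) ha
    have e : 2 * (u ^ 2 / 16) = u ^ 2 / 8 := by ring
    rw [e] at h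
    exact h
  refine hfin.trans (mul_le_mul_of_nonneg_left ?_ (by positivity))
  exact le_prob P _ (hS 0 0) ha

end Pool.Agent.W101.DL.COV
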